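import Mathlib

/-!
The geometric realisation of a clique complex: the union of the convex hulls of the cliques is the
set of nonnegative functions of sum one whose support is a clique.
-/

namespace Pool.Agent.Work.MP_d1e9a6_pr.H26

open Finset

variable {ι : Type*} [Fintype ι] [DecidableEq ι]

/-- The convex hull of the basis vectors indexed by `s`. -/
theorem mem_convexHull_single (s : Finset ι) (x : ι → ℝ) :
    x ∈ convexHull ℝ ((fun i : ι => (Pi.single i (1 : ℝ) : ι → ℝ)) '' (s : Set ι)) ↔
      (∀ i, 0 ≤ x i) ∧ ∑ i, x i = 1 ∧ ∀ i, i ∉ s → x i = 0 := by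
  constructor
  · intro hx
    have hconv : Convex ℝ {x : ι → ℝ | (∀ i, 0 ≤ x i) ∧ ∑ i, x i = 1 ∧ ∀ i, i ∉ s → x i = 0} := by
      intro x hx y hy a b ha hb hab
      refine ⟨fun i => ?_, ?_, fun i hi => ?_⟩
      · have h1 := hx.1 i
        have h2 := hy.1 i
        simp only [Pi.add_apply, Pi.smul_apply, smul_eq_mul]
        positivity
      · simp only [Pi.add_apply, Pi.smul_apply, smul_eq_mul, Finset.sum_add_distrib,
          ← Finset.mul_sum, hx.2.1, hy.2.1]
        linarith
      · simp [hx.2.2 i hi, hy.2.2 i hi]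
    refine convexHull_min ?_ hconv hx
    rintro _ ⟨j, hj, rfl⟩
    refine ⟨fun i => ?_, ?_, fun i hi => ?_⟩
    · by_cases h : i = j
      · subst h; simp
      · simp [h]
    · simp
    · have : i ≠ j := by
        rintro rfl
        exact hi hj
      simp [this]
  · rintro ⟨h0, h1, h2⟩
    have hx : x = ∑ i ∈ s, x i • (Pi.single i (1 : ℝ) : ι → ℝ) := by
      funext j
      rw [Finset.sum_apply]
      by_cases hj : j ∈ s
      · rw [Finset.sum_eq_single j]
        · simp
        · intro b _ hb
          simp [Ne.symm hb]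
        · exact fun h => absurd hj h
      · rw [h2 j hj, Finset.sum_eq_zero]
        intro b hb
        have : j ≠ b := by
          rintro rfl
          exact hj hb
        simp [this]
    have hs : ∑ i ∈ s, x i = 1 := by
      rw [← h1]
      refine Finset.sum_subset (Finset.subset_univ s) fun i _ hi => h2 i hi
    rw [hx]
    refine (convex_convexHull ℝ _).sum_mem (fun i _ => h0 i) hs fun i hi => ?_
    exact subset_convexHull ℝ _ ⟨i, hi, rfl⟩

/-- The union of the closed simplices of a family of faces which is closed under subsets. -/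
theorem exists_mem_convexHull_iff (P : Finset ι → Prop) (hP : ∀ s t, s ⊆ t → P t → P s)
    (x : ι → ℝ) :
    (∃ s : Finset ι, P s ∧
      x ∈ convexHull ℝ ((fun i : ι => (Pi.single i (1 : ℝ) : ι → ℝ)) '' (s : Set ι))) ↔
      (∀ i, 0 ≤ x i) ∧ ∑ i, x i = 1 ∧ P (Finset.univ.filter fun i => x i ≠ 0) := by
  constructor
  · rintro ⟨s, hs, hx⟩
    obtain ⟨h0, h1, h2⟩ := (mem_convexHull_single s x).1 hx
    refine ⟨h0, h1, hP _ s ?_ hs⟩
    intro i hi
    by_contra h
    exact (Finset.mem_filter.1 hi).2 (h2 i h)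
  · rintro ⟨h0, h1, h2⟩
    refine ⟨_, h2, (mem_convexHull_single _ x).2 ⟨h0, h1, fun i hi => ?_⟩⟩
    by_contra h
    exact hi (by simp [h])

/-- The clique complex version. -/
theorem clique_mem_iff (G : SimpleGraph ι) (x : ι → ℝ) :
    (∃ s : Finset ι, G.IsClique (s : Set ι) ∧
      x ∈ convexHull ℝ ((fun i : ι => (Pi.single i (1 : ℝ) : ι → ℝ)) '' (s : Set ι))) ↔
      (∀ i, 0 ≤ x i) ∧ ∑ i, x i = 1 ∧
        G.IsClique ((Finset.univ.filter fun i => x i ≠ 0 : Finset ι) : Set ι) :=
  exists_mem_convexHull_iff (fun s => G.IsClique (s : Set ι))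
    (fun s t hst ht => ht.subset (by exact_mod_cast hst)) x

end Pool.Agent.Work.MP_d1e9a6_pr.H26
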