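import Pool.Agent.Work.MP_d1e9a6_pr_h36.Cells
import Pool.Agent.Work.MP_d1e9a6_pr_h26.Bridge

/-!
A map which is defined on the 2-skeleton of a combinatorially simply connected complex is
null-homotopic on the 1-skeleton.
-/

open scoped unitInterval Topology
open Set CategoryTheory

noncomputable section

namespace Pool.Agent.Work.MP_d1e9a6_pr.H26

open Pool.Agent.Work.MP_d1e9a6_pr.Top

variable {n : ℕ} {K : Set (Finset (Fin n))}

lemma single_of_pair (hK : IsCpx K) {a b : Fin n} (h : {a, b} ∈ K) :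
    ({a} : Finset (Fin n)) ∈ K ∧ ({b} : Finset (Fin n)) ∈ K := by
  constructor
  · exact hK.down _ h _ (by intro x; simp only [Finset.mem_singleton, Finset.mem_insert]; tauto)
      ⟨a, by simp⟩
  · exact hK.down _ h _ (by intro x; simp only [Finset.mem_singleton, Finset.mem_insert]; tauto)
      ⟨b, by simp⟩

lemma pairs_of_triple (hK : IsCpx K) {a b c : Fin n} (h : {a, b, c} ∈ K) :
    ({a, b} : Finset (Fin n)) ∈ K ∧ ({b, c} : Finset (Fin n)) ∈ K ∧
      ({a, c} : Finset (Fin n)) ∈ K := by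
  refine ⟨?_, ?_, ?_⟩
  · exact hK.down _ h _ (by intro x; simp only [Finset.mem_singleton, Finset.mem_insert]; tauto)
      ⟨a, by simp⟩
  · exact hK.down _ h _ (by intro x; simp only [Finset.mem_singleton, Finset.mem_insert]; tauto)
      ⟨b, by simp⟩
  · exact hK.down _ h _ (by intro x; simp only [Finset.mem_singleton, Finset.mem_insert]; tauto)
      ⟨a, by simp⟩

/-- A cocycle of isomorphisms over a simply connected complex is a coboundary. -/
theorem groupoid_lemma (hK : IsCpx K) (hSC : SC K) {C : Type} [Groupoid.{0} C] (v : Fin n → C)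
    (E : ∀ a b : Fin n, {a, b} ∈ K → (v a ⟶ v b))
    (hE : ∀ (a b c : Fin n) (_ : {a, b, c} ∈ K) (h1 : {a, b} ∈ K) (h2 : {b, c} ∈ K)
      (h3 : {a, c} ∈ K), E a b h1 ≫ E b c h2 = E a c h3)
    (a0 : Fin n) (ha0 : {a0} ∈ K) :
    ∃ s : ∀ a, {a} ∈ K → (v a0 ⟶ v a),
      ∀ (a b : Fin n) (h : {a, b} ∈ K) (ha : {a} ∈ K) (hb : {b} ∈ K),
        s a ha ≫ E a b h = s b hb := by
  classical
  obtain ⟨hconn, hcoc⟩ := hSC
  have hα : ∀ a, {a} ∈ K → Nonempty (v a0 ⟶ v a) := by
    intro a ha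
    have := hconn a0 a ha0 ha
    induction this with
    | refl => exact ⟨𝟙 _⟩
    | @tail x y _ hxy ih =>
      obtain ⟨α⟩ := ih (single_of_pair hK hxy).1
      exact ⟨α ≫ E x y hxy⟩
  have α : ∀ a, {a} ∈ K → (v a0 ⟶ v a) := fun a ha => (hα a ha).some
  let e : Fin n → Fin n → (v a0 ⟶ v a0) := fun a b =>
    if h : {a, b} ∈ K then
      α a (single_of_pair hK h).1 ≫ E a b h ≫ inv (α b (single_of_pair hK h).2)
    else 𝟙 _
  have he : ∀ a b (h : {a, b} ∈ K), e a b = α a (single_of_pair hK h).1 ≫ E a b h ≫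
        inv (α b (single_of_pair hK h).2) := by
    intro a b h
    simp only [e]
    rw [dif_pos h]
  obtain ⟨s, hs⟩ := hcoc (v a0 ⟶ v a0) e (by
    intro a b c habc
    obtain ⟨h1, h2, h3⟩ := pairs_of_triple hK habc
    rw [he a b h1, he b c h2, he a c h3, Groupoid.vertexGroup_mul,
      ← hE a b c habc h1 h2 h3]
    simp)
  refine ⟨fun a ha => s a ≫ α a ha, fun a b h ha hb => ?_⟩
  have h1 : s a * e a b = s b := by rw [hs a b h]; simp
  rw [he a b h, Groupoid.vertexGroup_mul] at h1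
  change (s a ≫ α a ha) ≫ E a b h = s b ≫ α b hb
  rw [← h1]
  simp

/-! ### Paths in `ℝ^n` and their images -/

/-- the vertex `a` -/
def vx (a : Fin n) : Fin n → ℝ := Pi.single a 1

/-- the closed simplex on `s` -/
def cs (s : Finset (Fin n)) : Set (Fin n → ℝ) :=
  convexHull ℝ ((fun i : Fin n => (Pi.single i (1 : ℝ) : Fin n → ℝ)) '' (s : Set (Fin n)))

lemma vx_mem_cs {s : Finset (Fin n)} {a : Fin n} (ha : a ∈ s) : vx a ∈ cs s :=
  subset_convexHull ℝ _ ⟨a, ha, rfl⟩

lemma convex_cs (s : Finset (Fin n)) : Convex ℝ (cs s) := convex_convexHull ℝ _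

lemma cs_supp {s : Finset (Fin n)} {x : Fin n → ℝ} (hx : x ∈ cs s) : supp x ⊆ s := by
  intro i hi
  by_contra h
  exact mem_supp.1 hi (((mem_convexHull_single s x).1 hx).2.2 i h)

lemma cs_real (hK : IsCpx K) {s : Finset (Fin n)} (hs : s ∈ K) {x : Fin n → ℝ} (hx : x ∈ cs s) :
    x ∈ real K := by
  obtain ⟨h0, h1, h2⟩ := (mem_convexHull_single s x).1 hx
  exact ⟨h0, h1, hK.down _ hs _ (cs_supp hx) (supp_nonempty h1)⟩

/-- the points of `|K|` of the `2`-skeleton, as a subset of `ℝ^n` -/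
def d3 (K : Set (Finset (Fin n))) : Set (Fin n → ℝ) := {x | x ∈ real K ∧ (supp x).card ≤ 3}

lemma cs_sub_d3 (hK : IsCpx K) {s : Finset (Fin n)} (hs : s ∈ K) (h3 : s.card ≤ 3) :
    cs s ⊆ d3 K := fun _ hx => ⟨cs_real hK hs hx, (Finset.card_le_card (cs_supp hx)).trans h3⟩

/-- straight segment -/
def seg (x y : Fin n → ℝ) : Path x y where
  toFun t := (1 - (t : ℝ)) • x + (t : ℝ) • y
  continuous_toFun := by fun_prop
  source' := by simp
  target' := by simp

lemma seg_apply (x y : Fin n → ℝ) (t : I) : seg x y t = (1 - (t : ℝ)) • x + (t : ℝ) • y := rfl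

lemma seg_mem {C : Set (Fin n → ℝ)} (hC : Convex ℝ C) {x y : Fin n → ℝ} (hx : x ∈ C) (hy : y ∈ C)
    (t : I) : seg x y t ∈ C :=
  hC hx hy (by linarith [t.2.2]) t.2.1 (by ring)

variable {Y : Type} [TopologicalSpace Y]

/-- the image of a path under a map which is continuous on `D` -/
def mapOn {F : (Fin n → ℝ) → Y} {D : Set (Fin n → ℝ)} (hF : ContinuousOn F D)
    {x y : Fin n → ℝ} (p : Path x y) (hp : ∀ t, p t ∈ D) : Path (F x) (F y) where
  toFun t := F (p t)
  continuous_toFun := hF.comp_continuous p.continuous hp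
  source' := by simp
  target' := by simp

lemma mapOn_apply {F : (Fin n → ℝ) → Y} {D : Set (Fin n → ℝ)} (hF : ContinuousOn F D)
    {x y : Fin n → ℝ} (p : Path x y) (hp : ∀ t, p t ∈ D) (t : I) : mapOn hF p hp t = F (p t) := rfl

lemma trans_mem {C : Set (Fin n → ℝ)} {x y z : Fin n → ℝ} {p : Path x y} {q : Path y z}
    (hp : ∀ t, p t ∈ C) (hq : ∀ t, q t ∈ C) (t : I) : p.trans q t ∈ C := by
  rw [Path.trans_apply]
  split_ifs
  · exact hp _
  · exact hq _

lemma mapOn_trans {F : (Fin n → ℝ) → Y} {D : Set (Fin n → ℝ)} (hF : ContinuousOn F D)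
    {x y z : Fin n → ℝ} (p : Path x y) (q : Path y z) (hp : ∀ t, p t ∈ D) (hq : ∀ t, q t ∈ D) :
    (mapOn hF p hp).trans (mapOn hF q hq) = mapOn hF (p.trans q) (trans_mem hp hq) := by
  ext t
  rw [mapOn_apply, Path.trans_apply, Path.trans_apply]
  split_ifs <;> rfl

/-- Two paths in a convex set have homotopic images. -/
lemma mapOn_homotopic {F : (Fin n → ℝ) → Y} {D : Set (Fin n → ℝ)} (hF : ContinuousOn F D)
    {C : Set (Fin n → ℝ)} (hC : Convex ℝ C) (hCD : C ⊆ D) {x y : Fin n → ℝ} (p q : Path x y)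
    (hp : ∀ t, p t ∈ C) (hq : ∀ t, q t ∈ C) :
    Path.Homotopic (mapOn hF p fun t => hCD (hp t)) (mapOn hF q fun t => hCD (hq t)) := by
  refine ⟨{ toFun := fun z => F ((1 - (z.1 : ℝ)) • p z.2 + (z.1 : ℝ) • q z.2)
            continuous_toFun := ?_
            map_zero_left := ?_
            map_one_left := ?_
            prop' := ?_ }⟩
  · refine hF.comp_continuous (by fun_prop) fun z => hCD ?_
    exact hC (hp _) (hq _) (by linarith [z.1.2.2]) z.1.2.1 (by ring)
  · intro t; simp [mapOn]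
  · intro t; simp [mapOn]
  · intro s t ht
    rcases ht with ht | ht
    · have ht' : t = 0 := ht
      subst ht'
      simp only [ContinuousMap.coe_mk, Path.source]
      rw [← add_smul]; simp [mapOn]
    · have ht' : t = 1 := ht
      subst ht'
      simp only [ContinuousMap.coe_mk, Path.target]
      rw [← add_smul]; simp [mapOn]

/-! ### Squares -/

/-- `min (1, 2 - 2 s)` -/
def dn (s : I) : I := projIcc (0 : ℝ) 1 zero_le_one (2 - 2 * (s : ℝ))

/-- `min (1, 2 s)` -/
def up (s : I) : I := projIcc (0 : ℝ) 1 zero_le_one (2 * (s : ℝ))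

lemma continuous_dn : Continuous dn := continuous_projIcc.comp (by fun_prop)

lemma continuous_up : Continuous up := continuous_projIcc.comp (by fun_prop)

@[simp] lemma dn_zero : dn 0 = 1 := by
  unfold dn
  exact projIcc_of_right_le _ (by norm_num)

@[simp] lemma dn_one : dn 1 = 0 := by
  unfold dn
  exact projIcc_of_le_left _ (by norm_num)

@[simp] lemma up_zero : up 0 = 0 := by
  unfold up
  exact projIcc_of_le_left _ (by norm_num)

@[simp] lemma up_one : up 1 = 1 := by
  unfold up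
  exact projIcc_of_right_le _ (by norm_num)

lemma dn_or_up (s : I) : dn s = 1 ∨ up s = 1 := by
  rcases le_total (s : ℝ) (1 / 2) with h | h
  · left
    unfold dn
    exact projIcc_of_right_le _ (by linarith)
  · right
    unfold up
    exact projIcc_of_right_le _ (by linarith)

/-- `d (1 + x) / 2` -/
def hf (d x : I) : I := ⟨(d : ℝ) * ((1 + (x : ℝ)) / 2), by
    have := d.2.1; have := x.2.1; positivity, by
    have h1 := d.2.2; have h2 := x.2.2; have h3 := d.2.1; have h4 := x.2.1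
    nlinarith⟩

lemma continuous_hf : Continuous fun p : I × I => hf p.1 p.2 := by
  unfold hf
  exact Continuous.subtype_mk (by fun_prop) _

/-- A square with prescribed sides from a homotopy `p * e ~ q`. -/
theorem exists_square {y0 y1 y2 : Y} (p : Path y0 y1) (e : Path y1 y2) (q : Path y0 y2)
    (h : Path.Homotopic (p.trans e) q) :
    ∃ Q : C(I × I, Y), (∀ x, Q (x, 0) = e x) ∧ (∀ x, Q (x, 1) = y0) ∧
      (∀ s, Q (0, s) = p (dn s)) ∧ (∀ s, Q (1, s) = q (dn s)) := by
  obtain ⟨H⟩ := h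
  refine ⟨⟨fun z => H (up z.2 * z.1, hf (dn z.2) z.1), ?_⟩, ?_, ?_, ?_, ?_⟩
  · refine H.continuous.comp (Continuous.prodMk ?_ ?_)
    · exact (continuous_up.comp continuous_snd).mul continuous_fst
    · exact continuous_hf.comp ((continuous_dn.comp continuous_snd).prodMk continuous_fst)
  · intro x
    simp only [ContinuousMap.coe_mk, up_zero, zero_mul, dn_zero]
    rw [ContinuousMap.HomotopyWith.apply_zero]
    change (p.trans e) (hf 1 x) = e x
    rw [Path.trans_apply]
    split_ifs with hx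
    · have hx0 : x = 0 := by
        apply Subtype.ext
        have h1 : (hf 1 x : ℝ) = (1 : ℝ) * ((1 + (x : ℝ)) / 2) := rfl
        have h2 := x.2.1
        rw [h1] at hx
        have h3 : (x : ℝ) ≤ 0 := by linarith
        exact le_antisymm h3 h2
      subst hx0
      have : (⟨2 * (hf 1 0 : ℝ), (unitInterval.mul_pos_mem_iff zero_lt_two).2
          ⟨(hf 1 0).2.1, hx⟩⟩ : I) = 1 := by
        apply Subtype.ext
        change 2 * ((1 : ℝ) * ((1 + (0 : ℝ)) / 2)) = 1
        norm_num
      rw [this]; simp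
    · congr 1
      apply Subtype.ext
      change 2 * ((1 : ℝ) * ((1 + (x : ℝ)) / 2)) - 1 = x
      ring
  · intro x
    simp only [ContinuousMap.coe_mk, dn_one, up_one, one_mul]
    have : hf 0 x = 0 := by
      apply Subtype.ext
      change (0 : ℝ) * ((1 + (x : ℝ)) / 2) = 0
      ring
    rw [this]
    exact Path.Homotopy.source H x
  · intro s
    simp only [ContinuousMap.coe_mk, mul_zero]
    rw [ContinuousMap.HomotopyWith.apply_zero]
    change (p.trans e) (hf (dn s) 0) = p (dn s)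
    rw [Path.trans_apply]
    have h1 : (hf (dn s) 0 : ℝ) = (dn s : ℝ) * ((1 + (0 : ℝ)) / 2) := rfl
    have h2 : (hf (dn s) 0 : ℝ) ≤ 1 / 2 := by
      rw [h1]; have := (dn s).2.2; linarith
    rw [dif_pos h2]
    congr 1
    apply Subtype.ext
    change 2 * ((dn s : ℝ) * ((1 + (0 : ℝ)) / 2)) = dn s
    ring
  · intro s
    simp only [ContinuousMap.coe_mk, mul_one]
    have h1 : hf (dn s) 1 = dn s := by
      apply Subtype.ext
      change (dn s : ℝ) * ((1 + (1 : ℝ)) / 2) = dn s
      ring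
    rw [h1]
    rcases dn_or_up s with h2 | h2
    · rw [h2, Path.Homotopy.target, Path.target]
    · rw [h2, ContinuousMap.HomotopyWith.apply_one]
      rfl

/-! ### The theorem -/

lemma map_fin_one (τ : Fin 1 ↪o Fin n) :
    (Finset.univ.map τ.toEmbedding : Finset (Fin n)) = {τ 0} := by
  ext v
  simp only [Finset.mem_map, Finset.mem_univ, true_and, Finset.mem_singleton]
  constructor
  · rintro ⟨l, rfl⟩
    rw [Fin.fin_one_eq_zero l]; rfl
  · rintro rfl
    exact ⟨0, rfl⟩

lemma map_fin_two (τ : Fin 2 ↪o Fin n) :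
    (Finset.univ.map τ.toEmbedding : Finset (Fin n)) = {τ 0, τ 1} := by
  ext v
  simp only [Finset.mem_map, Finset.mem_univ, true_and, Finset.mem_singleton, Finset.mem_insert]
  constructor
  · rintro ⟨l, rfl⟩
    fin_cases l
    · left; rfl
    · right; rfl
  · rintro (rfl | rfl)
    · exact ⟨0, rfl⟩
    · exact ⟨1, rfl⟩

lemma cellFun_zero (τ : Fin 1 → Fin n) (x : Fin 0 → I) : cellFun τ x = vx (τ 0) := by
  funext v
  unfold cellFun vx
  rw [Fin.sum_univ_one, bary_zero]
  by_cases h : v = τ 0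
  · subst h; simp
  · rw [Pi.single_eq_of_ne h, if_neg (fun h' => h h'.symm)]

lemma cellFun_one (τ : Fin 2 → Fin n) (x : Fin 1 → I) :
    cellFun τ x = seg (vx (τ 0)) (vx (τ 1)) (x 0) := by
  funext v
  rw [seg_apply]
  unfold cellFun vx
  rw [Fin.sum_univ_two]
  have h1 : bary 1 x 0 = 1 - (x 0 : ℝ) := rfl
  have h2 : bary 1 x 1 = (x 0 : ℝ) := by
    have := bary_succ_succ x 0
    rw [show (1 : Fin 2) = Fin.succ 0 from rfl, this]
    simp
  rw [h1, h2]
  simp only [Pi.add_apply, Pi.smul_apply, smul_eq_mul, Pi.single_apply, eq_comm (a := v)]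
  split_ifs <;> ring

/-- A map on the 2-skeleton of a simply connected complex is null-homotopic on the
1-skeleton. -/
theorem sc_step (hK : IsCpx K) (hne : K.Nonempty) (hSC : SC K) {f : real K → Y}
    (hf : ContinuousOn f (sk K 3)) :
    ∃ (y0 : Y) (G : real K × I → Y), ContinuousOn G (sk K 2 ×ˢ univ) ∧
      ∀ x ∈ sk K 2, G (x, 0) = f x ∧ G (x, 1) = y0 := by
  classical
  obtain ⟨s0, hs0⟩ := hne
  obtain ⟨a0, ha0'⟩ := hK.ne s0 hs0
  have ha0 : ({a0} : Finset (Fin n)) ∈ K := hK.down _ hs0 _ (by simpa using ha0') ⟨a0, by simp⟩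
  have hx0 : vx a0 ∈ real K := cs_real hK ha0 (vx_mem_cs (by simp))
  -- total extension
  let F : (Fin n → ℝ) → Y := fun x => if h : x ∈ real K then f ⟨x, h⟩ else f ⟨vx a0, hx0⟩
  have hFr : ∀ x : real K, F x.1 = f x := by
    intro x
    simp only [F]
    rw [dif_pos x.2]
  have hF : ContinuousOn F (d3 K) := by
    rw [continuousOn_iff_continuous_domRestrict]
    have : (d3 K).domRestrict F = fun x => f ⟨x.1, x.2.1⟩ := by
      funext x
      exact hFr ⟨x.1, x.2.1⟩
    rw [this]
    exact hf.comp_continuous (Continuous.subtype_mk continuous_subtype_val _) (fun x => x.2.2)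
  -- edges
  have hmem : ∀ a b (s : Finset (Fin n)), a ∈ s → b ∈ s → ∀ t, seg (vx a) (vx b) t ∈ cs s :=
    fun a b s ha hb t => seg_mem (convex_cs s) (vx_mem_cs ha) (vx_mem_cs hb) t
  have hD : ∀ a b, ({a, b} : Finset (Fin n)) ∈ K → ∀ t, seg (vx a) (vx b) t ∈ d3 K :=
    fun a b h t => cs_sub_d3 hK h (Finset.card_le_two.trans (by norm_num))
      (hmem a b {a, b} (by simp) (by simp) t)
  let E : ∀ a b, ({a, b} : Finset (Fin n)) ∈ K → Path (F (vx a)) (F (vx b)) :=
    fun a b h => mapOn hF (seg (vx a) (vx b)) (hD a b h)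
  have hE : ∀ (a b c : Fin n) (_ : {a, b, c} ∈ K) (h1 : {a, b} ∈ K) (h2 : {b, c} ∈ K)
      (h3 : {a, c} ∈ K), Path.Homotopic ((E a b h1).trans (E b c h2)) (E a c h3) := by
    intro a b c h h1 h2 h3
    simp only [E]
    rw [mapOn_trans]
    exact mapOn_homotopic hF (convex_cs {a, b, c}) (cs_sub_d3 hK h Finset.card_le_three) _ _
      (trans_mem (hmem a b _ (by simp) (by simp)) (hmem b c _ (by simp) (by simp)))
      (hmem a c _ (by simp) (by simp))
  obtain ⟨s, hs⟩ := groupoid_lemma hK hSC (C := FundamentalGroupoid Y)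
    (fun a => ⟨F (vx a)⟩) (fun a b h => Path.Homotopic.Quotient.mk (E a b h))
    (by
      intro a b c h h1 h2 h3
      change Path.Homotopic.Quotient.trans (Path.Homotopic.Quotient.mk (E a b h1))
        (Path.Homotopic.Quotient.mk (E b c h2)) = Path.Homotopic.Quotient.mk (E a c h3)
      rw [← Path.Homotopic.Quotient.mk_trans, Path.Homotopic.Quotient.eq]
      exact hE a b c h h1 h2 h3) a0 ha0
  have hγ : ∀ a (ha : ({a} : Finset (Fin n)) ∈ K), ∃ p : Path (F (vx a0)) (F (vx a)),
      Path.Homotopic.Quotient.mk p = s a ha := fun a ha =>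
    Path.Homotopic.Quotient.mk_surjective (s a ha)
  choose γ hγ using hγ
  have hsq : ∀ (a b : Fin n) (h : {a, b} ∈ K) (ha : {a} ∈ K) (hb : {b} ∈ K),
      Path.Homotopic ((γ a ha).trans (E a b h)) (γ b hb) := by
    intro a b h ha hb
    rw [← Path.Homotopic.Quotient.eq, Path.Homotopic.Quotient.mk_trans, hγ, hγ]
    exact hs a b h ha hb
  -- vertices
  have hτ0 : ∀ τ : Simp K 0, ({τ.1 0} : Finset (Fin n)) ∈ K := by
    intro τ
    have := τ.2
    rwa [map_fin_one] at this
  obtain ⟨G1, hG1, -, hG1c⟩ := (cellStr hK 0).glue (S := I) (Y := Y)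
    (G := fun _ => F (vx a0)) continuousOn_const
    (fun τ => ⟨fun p => γ (τ.1 0) (hτ0 τ) (dn p.2),
      (γ (τ.1 0) (hτ0 τ)).continuous.comp (continuous_dn.comp continuous_snd)⟩)
    (by
      intro τ x s hx
      obtain ⟨i, _⟩ := hx
      exact i.elim0)
  -- edges
  have hτ1 : ∀ τ : Simp K 1, ({τ.1 0, τ.1 1} : Finset (Fin n)) ∈ K := by
    intro τ
    have := τ.2
    rwa [map_fin_two] at this
  choose Q hQ0 hQ1 hQl hQr using fun τ : Simp K 1 =>
    exists_square (γ (τ.1 0) (single_of_pair hK (hτ1 τ)).1) (E (τ.1 0) (τ.1 1) (hτ1 τ))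
      (γ (τ.1 1) (single_of_pair hK (hτ1 τ)).2)
      (hsq _ _ (hτ1 τ) (single_of_pair hK (hτ1 τ)).1 (single_of_pair hK (hτ1 τ)).2)
  obtain ⟨G2, hG2, hG2a, hG2c⟩ := (cellStr hK 1).glue (S := I) (Y := Y) hG1
    (fun τ => ⟨fun p => Q τ (p.1 0, p.2), (Q τ).continuous.comp (by fun_prop)⟩)
    (by
      intro τ x s hx
      obtain ⟨i, b, hi⟩ := mem_bd_iff.1 hx
      have hi0 : i = 0 := Fin.fin_one_eq_zero i
      subst hi0
      simp only [ContinuousMap.coe_mk]
      rw [← fc_rem hi]
      cases b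
      · rw [show (0 : Fin 1) = Fin.last 0 from rfl, cell_face_last, hG1c]
        simp only [ContinuousMap.coe_mk]
        rw [fc_same]
        exact hQl τ s
      · rw [cell_face_true, hG1c]
        simp only [ContinuousMap.coe_mk]
        rw [fc_same]
        exact hQr τ s)
  refine ⟨F (vx a0), G2, hG2, ?_⟩
  intro x hx
  rcases (cellStr hK 1).cover x hx with h1 | ⟨τ, y, rfl⟩
  · rw [hG2a x h1, hG2a x h1]
    rcases (cellStr hK 0).cover x h1 with h0 | ⟨τ, y, rfl⟩
    · rw [sk_zero] at h0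
      exact absurd h0 (Set.notMem_empty x)
    · rw [hG1c, hG1c]
      simp only [ContinuousMap.coe_mk, dn_zero, dn_one, Path.source, Path.target, and_true]
      rw [← hFr, cell_coe, cellFun_zero]
  · rw [hG2c, hG2c]
    simp only [ContinuousMap.coe_mk]
    rw [hQ0, hQ1]
    refine ⟨?_, rfl⟩
    rw [← hFr, cell_coe, cellFun_one]
    rfl

end Pool.Agent.Work.MP_d1e9a6_pr.H26
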