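import Mathlib

/-!
The fundamental group of a flag complex with connected common neighbourhoods: every
multiplicative 1-cocycle on the edges is a coboundary.
-/

namespace Pool.Agent.Work.MP_d1e9a6_pr.H26

variable {V : Type*} (G : SimpleGraph V) {H : Type*} [Group H]

/-- The set of common neighbours of two vertices. -/
def cn (a b : V) : Set V := {w | G.Adj a w ∧ G.Adj b w}

/-- Symmetric version: `e` is defined on all ordered pairs. -/
theorem exists_coboundary_symm [Nonempty V] (e : V → V → H)
    (htri : ∀ a b c, G.Adj a b → G.Adj b c → G.Adj a c → e a b * e b c = e a c)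
    (b0 : V)
    (hconn : ∀ u : V, (G.induce (cn G b0 u)).Preconnected)
    (hne : ∀ u v : V, G.Adj u v → ∃ w, G.Adj b0 w ∧ G.Adj u w ∧ G.Adj v w)
    (hne' : ∀ u : V, ∃ w, G.Adj b0 w ∧ G.Adj u w) :
    ∃ s : V → H, ∀ a b, G.Adj a b → e a b = (s a)⁻¹ * s b := by
  classical
  choose m hm1 hm2 using hne'
  -- independence of the midpoint
  have indep : ∀ u (w w' : cn G b0 u), (G.induce (cn G b0 u)).Reachable w w' →
      e b0 w * e w u = e b0 w' * e w' u := by
    intro u w w' hww
    obtain ⟨p⟩ := hww
    induction p with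
    | nil => rfl
    | @cons x y z hxy _ ih =>
      rw [← ih]
      have hxy' : G.Adj (x : V) (y : V) := hxy
      have hx := x.2
      have hy := y.2
      have h1 : e b0 x * e x y = e b0 y := htri _ _ _ hx.1 hxy' hy.1
      have h2 : e x y * e y u = e x u := htri _ _ _ hxy' hy.2.symm hx.2.symm
      rw [← h1, mul_assoc, h2]
  have key : ∀ u w, G.Adj b0 w → G.Adj u w → e b0 (m u) * e (m u) u = e b0 w * e w u := by
    intro u w h1 h2
    exact indep u ⟨m u, hm1 u, hm2 u⟩ ⟨w, h1, h2⟩ (hconn u _ _)
  refine ⟨fun v => e b0 (m v) * e (m v) v, fun a b hab => ?_⟩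
  obtain ⟨w, hw0, hwa, hwb⟩ := hne a b hab
  change e a b = (e b0 (m a) * e (m a) a)⁻¹ * (e b0 (m b) * e (m b) b)
  rw [key a w hw0 hwa, key b w hw0 hwb, eq_inv_mul_iff_mul_eq]
  rw [mul_assoc, htri w a b hwa.symm hab hwb.symm]

/-- Version for cocycles which are given on increasing pairs only. -/
theorem exists_coboundary [LinearOrder V] [Nonempty V] (e : V → V → H)
    (htri : ∀ a b c, a < b → b < c → G.Adj a b → G.Adj b c → G.Adj a c → e a b * e b c = e a c)
    (b0 : V)
    (hconn : ∀ u : V, (G.induce (cn G b0 u)).Preconnected)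
    (hne : ∀ u v : V, ∃ w, G.Adj b0 w ∧ G.Adj u w ∧ G.Adj v w) :
    ∃ s : V → H, ∀ a b, a < b → G.Adj a b → e a b = (s a)⁻¹ * s b := by
  classical
  set e' : V → V → H := fun a b => if a < b then e a b else (e b a)⁻¹ with he'
  have e'lt : ∀ a b, a < b → e' a b = e a b := fun a b h => by simp [he', h]
  have e'gt : ∀ a b, b < a → e' a b = (e b a)⁻¹ := fun a b h => by simp [he', h.not_gt]
  have htri' : ∀ a b c, G.Adj a b → G.Adj b c → G.Adj a c → e' a b * e' b c = e' a c := by
    intro a b c hab hbc hac
    rcases lt_trichotomy a b with h1 | h1 | h1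
    · rcases lt_trichotomy b c with h2 | h2 | h2
      · rw [e'lt a b h1, e'lt b c h2, e'lt a c (h1.trans h2)]
        exact htri a b c h1 h2 hab hbc hac
      · exact absurd h2 hbc.ne
      · rcases lt_trichotomy a c with h3 | h3 | h3
        · rw [e'lt a b h1, e'gt b c h2, e'lt a c h3, ← htri a c b h3 h2 hac hbc.symm hab]
          simp
        · exact absurd h3 hac.ne
        · rw [e'lt a b h1, e'gt b c h2, e'gt a c h3, ← htri c a b h3 h1 hac.symm hab hbc.symm]
          simp
    · exact absurd h1 hab.ne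
    · rcases lt_trichotomy b c with h2 | h2 | h2
      · rcases lt_trichotomy a c with h3 | h3 | h3
        · rw [e'gt a b h1, e'lt b c h2, e'lt a c h3, ← htri b a c h1 h3 hab.symm hac hbc]
          simp
        · exact absurd h3 hac.ne
        · rw [e'gt a b h1, e'lt b c h2, e'gt a c h3, ← htri b c a h2 h3 hbc hac.symm hab.symm]
          simp
      · exact absurd h2 hbc.ne
      · rw [e'gt a b h1, e'gt b c h2, e'gt a c (h2.trans h1),
          ← htri c b a h2 h1 hbc.symm hab.symm hac.symm]
        simp
  obtain ⟨s, hs⟩ := exists_coboundary_symm G e' htri' b0 hconn (fun u v _ => hne u v)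
    (fun u => by obtain ⟨w, h1, h2, _⟩ := hne u u; exact ⟨w, h1, h2⟩)
  refine ⟨s, fun a b hab h => ?_⟩
  rw [← e'lt a b hab]
  exact hs a b h

/-- A set of vertices on which every integral 0-chain of sum zero is the boundary of a 1-chain
supported by the edges is connected (`b x y` = coefficient of the edge from `x` to `y`). -/
theorem preconnected_of_boundary [Fintype V] [DecidableEq V] (S : Set V)
    (h : ∀ c : V → ℤ, (∀ v, v ∉ S → c v = 0) → ∑ v, c v = 0 →
      ∃ b : V → V → ℤ, (∀ x y, b x y ≠ 0 → G.Adj x y ∧ x ∈ S ∧ y ∈ S) ∧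
        ∀ v, c v = ∑ x, b x v - ∑ y, b v y) :
    (G.induce S).Preconnected := by
  classical
  intro x y
  by_contra hxy
  set C : Set V := {v | ∃ hv : v ∈ S, (G.induce S).Reachable x ⟨v, hv⟩} with hC
  have hxC : (x : V) ∈ C := ⟨x.2, SimpleGraph.Reachable.refl _⟩
  have hyC : (y : V) ∉ C := fun ⟨_, h⟩ => hxy h
  have hne : (x : V) ≠ y := fun h => hyC (h ▸ hxC)
  obtain ⟨b, hb1, hb2⟩ := h (fun v => if v = (x : V) then 1 else if v = (y : V) then -1 else 0)
    (by
      intro v hv
      have h1 : v ≠ (x : V) := fun h => hv (h ▸ x.2)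
      have h2 : v ≠ (y : V) := fun h => hv (h ▸ y.2)
      simp [h1, h2])
    (by
      rw [Finset.sum_ite, Finset.sum_ite]
      simp only [Finset.sum_const, Finset.filter_filter]
      have h1 : (Finset.univ.filter fun v : V => v = (x : V)) = {(x : V)} := by ext; simp
      have h2 : (Finset.univ.filter fun v : V => ¬ v = (x : V) ∧ v = (y : V)) = {(y : V)} := by
        ext v
        simp only [Finset.mem_filter, Finset.mem_univ, true_and, Finset.mem_singleton]
        constructor
        · exact fun h => h.2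
        · rintro rfl
          exact ⟨Ne.symm hne, rfl⟩
      rw [h1, h2]
      simp)
  have hcross : ∀ u v, b u v ≠ 0 → (u ∈ C ↔ v ∈ C) := by
    intro u v huv
    obtain ⟨hadj, hu, hv⟩ := hb1 u v huv
    constructor
    · rintro ⟨_, h⟩
      refine ⟨hv, h.trans ?_⟩
      exact SimpleGraph.Adj.reachable (by exact hadj)
    · rintro ⟨_, h⟩
      refine ⟨hu, h.trans ?_⟩
      exact SimpleGraph.Adj.reachable (by exact hadj.symm)
  have hsum : ∑ v ∈ Finset.univ.filter (fun v => v ∈ C),
      (if v = (x : V) then (1 : ℤ) else if v = (y : V) then -1 else 0) = 1 := by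
    rw [Finset.sum_eq_single (x : V)]
    · simp
    · intro v hv hvx
      have : v ≠ (y : V) := by
        rintro rfl
        exact hyC (Finset.mem_filter.1 hv).2
      simp [hvx, this]
    · intro hx
      exact absurd (Finset.mem_filter.2 ⟨Finset.mem_univ _, hxC⟩) hx
  have hzero : ∑ v ∈ Finset.univ.filter (fun v => v ∈ C), (∑ u, b u v - ∑ w, b v w) = 0 := by
    rw [Finset.sum_sub_distrib]
    have e1 : ∑ v ∈ Finset.univ.filter (fun v => v ∈ C), ∑ u, b u v =
        ∑ v ∈ Finset.univ.filter (fun v => v ∈ C),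
          ∑ u ∈ Finset.univ.filter (fun v => v ∈ C), b u v := by
      refine Finset.sum_congr rfl fun v hv => ?_
      symm
      refine Finset.sum_subset (Finset.filter_subset _ _) fun u _ hu => ?_
      by_contra hne
      exact hu (Finset.mem_filter.2 ⟨Finset.mem_univ _,
        (hcross u v hne).2 (Finset.mem_filter.1 hv).2⟩)
    have e2 : ∑ v ∈ Finset.univ.filter (fun v => v ∈ C), ∑ w, b v w =
        ∑ v ∈ Finset.univ.filter (fun v => v ∈ C),
          ∑ w ∈ Finset.univ.filter (fun v => v ∈ C), b v w := by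
      refine Finset.sum_congr rfl fun v hv => ?_
      symm
      refine Finset.sum_subset (Finset.filter_subset _ _) fun u _ hu => ?_
      by_contra hne
      exact hu (Finset.mem_filter.2 ⟨Finset.mem_univ _,
        (hcross v u hne).1 (Finset.mem_filter.1 hv).2⟩)
    rw [e1, e2, Finset.sum_comm, sub_self]
  rw [← Finset.sum_congr rfl (fun v _ => hb2 v), hsum] at hzero
  exact one_ne_zero hzero

end Pool.Agent.Work.MP_d1e9a6_pr.H26
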