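import Pool.Agent.Work.MP_d1e9a6_pr.Statements
import Pool.Agent.Work.MP_d1e9a6_pr_h36.Defs
import Pool.Agent.Work.MP_d1e9a6_pr_h26.Bridge
import Pool.Agent.Work.MP_d1e9a6_pr_h26.PiOne

/-!
Conversion between the conventions of `Work/MP_d1e9a6_pr` (lower sets, containing the empty face)
and of `Work/MP_d1e9a6_pr_h36` (nonempty faces), the geometric realisation of the frozen
statement, and combinatorial simple connectivity `SC`.
-/

set_option autoImplicit false

namespace Pool.Agent.Work.MP_d1e9a6_pr.H26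

open Finset

variable {n : ℕ}

/-- the nonempty faces -/
def nz (K : Set (Finset (Fin n))) : Set (Finset (Fin n)) := {s | s ∈ K ∧ s.Nonempty}

theorem mem_nz {K : Set (Finset (Fin n))} {s : Finset (Fin n)} :
    s ∈ nz K ↔ s ∈ K ∧ s.Nonempty := Iff.rfl

/-- a lower set becomes a complex after removing the empty face -/
theorem isCpx_nz {K : Set (Finset (Fin n))} (hK : IsLowerSet K) : Top.IsCpx (nz K) where
  ne _ hs := hs.2
  down s hs t hts ht := ⟨hK hts hs.1, ht⟩

theorem supp_eq (x : Fin n → ℝ) : Top.supp x = supp x := by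
  ext v
  simp [Top.supp, supp]

theorem supp_nonempty {x : Fin n → ℝ} (hx : ∑ i, x i = 1) : (supp x).Nonempty := by
  by_contra h
  rw [Finset.not_nonempty_iff_eq_empty] at h
  have h0 : ∀ i, x i = 0 := by
    intro i
    by_contra hi
    have : i ∈ supp x := (mem_supp x i).2 hi
    rw [h] at this
    exact absurd this (Finset.notMem_empty i)
  simp [h0] at hx

/-- the two realisations are the same set -/
theorem real_nz (K : Set (Finset (Fin n))) : Top.real (nz K) = Geo K := by
  ext x
  constructor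
  · rintro ⟨h0, h1, h2⟩
    refine ⟨h0, h1, ?_⟩
    rw [← supp_eq]
    exact h2.1
  · rintro ⟨h0, h1, h2⟩
    refine ⟨h0, h1, ?_, ?_⟩
    · rw [supp_eq]; exact h2
    · rw [supp_eq]; exact supp_nonempty h1

/-- the space of the frozen statement, as a set -/
theorem frozen_eq (G : SimpleGraph (Fin n)) :
    {x : Fin n → ℝ | ∃ s : Finset (Fin n), G.IsClique (s : Set (Fin n)) ∧
      x ∈ convexHull ℝ ((fun i : Fin n => (Pi.single i (1 : ℝ) : Fin n → ℝ)) ''
        (s : Set (Fin n)))} = Geo (cliques G) := by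
  ext x
  rw [Set.mem_setOf_eq, clique_mem_iff]
  have : (Finset.univ.filter fun i => x i ≠ 0 : Finset (Fin n)) = supp x := by
    ext v
    simp
  rw [this]
  rfl

theorem frozen_eq_real (G : SimpleGraph (Fin n)) :
    {x : Fin n → ℝ | ∃ s : Finset (Fin n), G.IsClique (s : Set (Fin n)) ∧
      x ∈ convexHull ℝ ((fun i : Fin n => (Pi.single i (1 : ℝ) : Fin n → ℝ)) ''
        (s : Set (Fin n)))} = Top.real (nz (cliques G)) := by
  rw [frozen_eq, real_nz]

theorem isLowerSet_cliques (G : SimpleGraph (Fin n)) : IsLowerSet (cliques G) := by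
  intro s t hts hs
  exact SimpleGraph.IsClique.subset (by exact_mod_cast hts) hs

/-- From a homotopy equivalence of realisations to the form of the frozen statement. -/
theorem frozen_of_real (G : SimpleGraph (Fin n)) (k : ℕ)
    (h : ∃ N : ℕ, Nonempty (ContinuousMap.HomotopyEquiv (Geo (cliques G)) (Top.wedge N k))) :
    ∃ m : ℕ, Nonempty (ContinuousMap.HomotopyEquiv
      {x : Fin n → ℝ // ∃ s : Finset (Fin n), G.IsClique (s : Set (Fin n)) ∧
          x ∈ convexHull ℝ ((fun i : Fin n => (Pi.single i (1 : ℝ) : Fin n → ℝ)) ''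
            (s : Set (Fin n)))}
      {y : Fin m × Fin (k + 1) → ℝ // y = 0 ∨ ∃ i : Fin m,
          (∀ j : Fin m, ∀ t : Fin (k + 1), j ≠ i → y (j, t) = 0) ∧
          ∑ t : Fin (k + 1), (y (i, t)) ^ 2 = 2 * y (i, 0)}) := by
  obtain ⟨N, ⟨e⟩⟩ := h
  refine ⟨N, ⟨?_⟩⟩
  exact (Homeomorph.setCongr (frozen_eq G)).toHomotopyEquiv.trans e

/-! ### Simple connectivity -/

/-- `SC` for a complex with the same faces of cardinality `≤ 3` as the clique complex of `G`. -/
theorem sc_of_nbhd (K : Set (Finset (Fin n))) (G : SimpleGraph (Fin n))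
    (hG : ∀ s : Finset (Fin n), s.card ≤ 3 → G.IsClique (s : Set (Fin n)) → s ∈ K)
    (hG' : ∀ s ∈ K, G.IsClique (s : Set (Fin n)))
    (h3 : ∀ u v w : Fin n, ∃ z, G.Adj z u ∧ G.Adj z v ∧ G.Adj z w)
    (h2 : ∀ u v a b : Fin n, G.Adj a u → G.Adj a v → G.Adj b u → G.Adj b v →
      Relation.ReflTransGen (fun x y => G.Adj x y ∧ G.Adj y u ∧ G.Adj y v) a b) :
    Top.SC (nz K) := by
  classical
  have hpair : ∀ a b, G.Adj a b → ({a, b} : Finset (Fin n)) ∈ nz K := by
    intro a b hab
    refine ⟨hG _ ?_ ?_, ⟨a, by simp⟩⟩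
    · exact (Finset.card_le_two).trans (by norm_num)
    · rw [SimpleGraph.isClique_iff]
      intro x hx y hy hxy
      simp only [Finset.coe_insert, Finset.coe_singleton, Set.mem_insert_iff,
        Set.mem_singleton_iff] at hx hy
      rcases hx with rfl | rfl <;> rcases hy with rfl | rfl
      · exact absurd rfl hxy
      · exact hab
      · exact hab.symm
      · exact absurd rfl hxy
  have htrip : ∀ a b c, G.Adj a b → G.Adj b c → G.Adj a c →
      ({a, b, c} : Finset (Fin n)) ∈ nz K := by
    intro a b c hab hbc hac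
    refine ⟨hG _ Finset.card_le_three ?_, ⟨a, by simp⟩⟩
    rw [SimpleGraph.isClique_iff]
    intro x hx y hy hxy
    simp only [Finset.coe_insert, Finset.coe_singleton, Set.mem_insert_iff,
      Set.mem_singleton_iff] at hx hy
    rcases hx with rfl | rfl | rfl <;> rcases hy with rfl | rfl | rfl
    · exact absurd rfl hxy
    · exact hab
    · exact hac
    · exact hab.symm
    · exact absurd rfl hxy
    · exact hbc
    · exact hac.symm
    · exact hbc.symm
    · exact absurd rfl hxy
  refine ⟨?_, ?_⟩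
  · intro a b _ _
    obtain ⟨z, hza, hzb, _⟩ := h3 a b b
    exact Relation.ReflTransGen.trans
      (Relation.ReflTransGen.single (hpair a z hza.symm))
      (Relation.ReflTransGen.single (hpair z b hzb))
  · intro H _ e he
    rcases Nat.eq_zero_or_pos n with hn | hn
    · subst hn
      exact ⟨fun _ => 1, fun a => a.elim0⟩
    haveI : Nonempty (Fin n) := ⟨⟨0, hn⟩⟩
    obtain ⟨s, hs⟩ := exists_coboundary_symm G e
      (fun a b c hab hbc hac => he a b c (htrip a b c hab hbc hac)) ⟨0, hn⟩
      (by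
        intro u
        have key : ∀ a b : Fin n, Relation.ReflTransGen
            (fun x y => G.Adj x y ∧ G.Adj y ⟨0, hn⟩ ∧ G.Adj y u) a b →
            ∀ (ha : a ∈ cn G ⟨0, hn⟩ u), ∃ hb : b ∈ cn G ⟨0, hn⟩ u,
              (G.induce (cn G ⟨0, hn⟩ u)).Reachable ⟨a, ha⟩ ⟨b, hb⟩ := by
          intro a b hab ha
          induction hab with
          | refl => exact ⟨ha, SimpleGraph.Reachable.refl _⟩
          | @tail x y _ hxy ih =>
            obtain ⟨hx, hr⟩ := ih
            refine ⟨⟨hxy.2.1.symm, hxy.2.2.symm⟩, hr.trans ?_⟩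
            exact SimpleGraph.Adj.reachable (by exact hxy.1)
        rintro ⟨a, ha⟩ ⟨b, hb⟩
        obtain ⟨_, hr⟩ := key a b (h2 _ u a b ha.1.symm ha.2.symm hb.1.symm hb.2.symm) ha
        exact hr)
      (by
        intro u v _
        obtain ⟨z, h0, h1, h2'⟩ := h3 ⟨0, hn⟩ u v
        exact ⟨z, h0.symm, h1.symm, h2'.symm⟩)
      (by
        intro u
        obtain ⟨z, h0, h1, _⟩ := h3 ⟨0, hn⟩ u u
        exact ⟨z, h0.symm, h1.symm⟩)
    refine ⟨s, fun a b hab => ?_⟩
    rcases eq_or_ne a b with rfl | hne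
    · have h1 := he a a a (by simpa using hab)
      rw [mul_eq_left] at h1
      rw [h1, inv_mul_cancel]
    · refine hs a b ?_
      have := hG' _ hab.1
      rw [SimpleGraph.isClique_iff] at this
      exact this (by simp) (by simp) hne

end Pool.Agent.Work.MP_d1e9a6_pr.H26
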